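import Pool.Agent.K1H35.SH.Stm2

/-!
Project SQ (helper35), piece MAJ (helper26): iterated smoothing.
-/

set_option autoImplicit false

namespace Pool.Agent.K1H26.SQ

open Finset Pool.Agent.K1H35.SH

lemma split {n : ℕ} {U : Finset (Fin n)} {i j : Fin n} (hi : i ∈ U) (hj : j ∈ U) (hij : i ≠ j)
    (h : Fin n → ℕ) : ∑ v ∈ U, h v = h i + (h j + ∑ v ∈ (U.erase i).erase j, h v) := by
  rw [← Finset.add_sum_erase U h hi, ← Finset.add_sum_erase (U.erase i) h
    (Finset.mem_erase.2 ⟨hij.symm, hj⟩)]

theorem t_MAJ : S_MAJ := by
  intro n U C h1 h2 D D' hoff hsum hbal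
  obtain ⟨N, hN⟩ : ∃ N, N = ∑ v ∈ U, (D v - D' v) := ⟨_, rfl⟩
  induction N using Nat.strong_induction_on generalizing D with
  | _ N ih =>
    by_cases h0 : ∀ v ∈ U, D v ≤ D' v
    · have heq : ∀ v ∈ U, D v = D' v := (Finset.sum_eq_sum_iff_of_le h0).1 hsum
      have : D = D' := by
        funext v
        by_cases hv : v ∈ U
        · exact heq v hv
        · exact hoff v hv
      rw [this]
    · push Not at h0
      obtain ⟨i, hi, hid⟩ := h0
      obtain ⟨j, hj, hjd⟩ : ∃ j ∈ U, D j < D' j := by
        by_contra hn
        push Not at hn
        have := Finset.sum_lt_sum hn ⟨i, hi, hid⟩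
        omega
      have hij : i ≠ j := by
        rintro rfl
        omega
      have hb := hbal j hj i hi
      set D1 := Function.update (Function.update D i (D i - 1)) j (D j + 1) with hD1
      have e1 : D1 j = D j + 1 := by rw [hD1, Function.update_self]
      have e2 : D1 i = D i - 1 := by
        rw [hD1, Function.update_of_ne hij, Function.update_self]
      have e3 : ∀ k, k ≠ i → k ≠ j → D1 k = D k := by
        intro k hk1 hk2
        rw [hD1, Function.update_of_ne hk2, Function.update_of_ne hk1]
      have hCle : C D ≤ C D1 := by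
        rcases lt_or_ge (D j + 1) (D i) with hlt | hge
        · exact h1 i hi j hj hij D hlt
        · have heq : D i = D j + 1 := by omega
          have hfun : D1 = D ∘ Equiv.swap i j := by
            funext k
            by_cases hk1 : k = i
            · subst hk1
              rw [e2, Function.comp, Equiv.swap_apply_left]
              omega
            · by_cases hk2 : k = j
              · subst hk2
                rw [e1, Function.comp, Equiv.swap_apply_right]
                omega
              · rw [e3 k hk1 hk2, Function.comp, Equiv.swap_apply_of_ne_of_ne hk1 hk2]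
          rw [hfun, h2 i hi j hj hij]
      have hrest : ∀ v ∈ (U.erase i).erase j, D1 v = D v := by
        intro v hv
        rw [Finset.mem_erase, Finset.mem_erase] at hv
        exact e3 v hv.2.1 hv.1
      have hs1 : ∑ v ∈ U, D1 v = ∑ v ∈ U, D' v := by
        have hr : ∑ v ∈ (U.erase i).erase j, D1 v = ∑ v ∈ (U.erase i).erase j, D v :=
          Finset.sum_congr rfl hrest
        rw [← hsum, split hi hj hij D1, split hi hj hij D, e1, e2, hr]
        omega
      have hoff1 : ∀ v, v ∉ U → D1 v = D' v := by
        intro v hv
        rw [e3 v (fun h => hv (h ▸ hi)) (fun h => hv (h ▸ hj))]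
        exact hoff v hv
      have hdist : ∑ v ∈ U, (D1 v - D' v) < N := by
        rw [hN, split hi hj hij (fun v => D1 v - D' v), split hi hj hij (fun v => D v - D' v)]
        have : ∑ v ∈ (U.erase i).erase j, (D1 v - D' v) =
            ∑ v ∈ (U.erase i).erase j, (D v - D' v) :=
          Finset.sum_congr rfl fun v hv => by rw [hrest v hv]
        rw [this]
        simp only [e1, e2]
        omega
      exact hCle.trans (ih _ hdist D1 hoff1 hs1 rfl)

end Pool.Agent.K1H26.SQ
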